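import Pool.Agent.helper1.CD.Spec2

set_option autoImplicit false

open NumberField IsDedekindDomain Complex Pool.Agent.CH Pool.Agent.GK

namespace Pool.Agent.CD

theorem NNP (hCLO : CLO_stmt) : NNP_stmt := by
  intro K _ _ _ _ μ _ S hS C T hC h0 hT
  by_contra h
  push Not at h
  obtain ⟨c, hc, hS'⟩ := hS
  have h1 := hCLO K μ S c hS' T hT
  have h2 : closure {s | ∃ v ∈ S, v ∉ T ∧ s ∈ frob K v} ⊆ C := by
    refine closure_minimal ?_ hC
    rintro s ⟨v, hv, hvT, hs⟩
    exact h v hv hvT s hs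
  have h3 : μ (closure {s | ∃ v ∈ S, v ∉ T ∧ s ∈ frob K v}) = 0 :=
    le_antisymm (le_trans (MeasureTheory.measure_mono h2) (le_of_eq h0)) (bot_le)
  have h4 : μ.real (closure {s | ∃ v ∈ S, v ∉ T ∧ s ∈ frob K v}) = 0 := by
    rw [MeasureTheory.Measure.real, h3, ENNReal.toReal_zero]
  have h5 : 0 < μ.real Set.univ := by
    rw [MeasureTheory.Measure.real, ENNReal.toReal_pos_iff]
    constructor
    · exact isOpen_univ.measure_pos μ Set.univ_nonempty
    · exact isCompact_univ.measure_lt_top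
  rw [h4] at h1
  have h6 : 0 < c * μ.real Set.univ := mul_pos hc h5
  linarith

end Pool.Agent.CD
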